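import Pool.Agent.H18.AG.PiNav
import Pool.Agent.H96.UG.NormSub

/-!
# The Alperin-McKay-Navarro conjecture modulo a prime

Let `p` and `ℓ` be different primes, `ℓ` odd, and let `X_n = V_n ⋊ A_n`, where `V_n` is the additive
group of the antisymmetric `n × n` matrices over the field with `ℓ` elements all of whose row sums
are zero, on which the alternating group `A_n` acts by simultaneous permutation of the rows and
columns; if `ℓ` does not divide `n` and `n ≥ 8` then `1`, `V_n` and `X_n` are the only normal
subgroups of `X_n`. Let `N` be an infinite set of such `n`.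

Let `q` be a function on the natural numbers whose values are primes different from `p`, and `π` a
set of primes each of which is the value `q |X_n|` for only finitely many `n ∈ N`. For a `p`-block `B`
of a finite group `G` let `H_B^π` be the group of the elements of the stabiliser `H_B` of `B` in
Navarro's group which act on the roots of unity of order `|G|` with an order all of whose prime
divisors are in `π`.

If for the blocks `B` of the groups `X_n`, `n ∈ N`, with Brauer correspondent `b`, and for all
subsets `A` of `H_B^π` the numbers of `A`-fixed characters of height zero of `B` and `b` are congruent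
modulo the prime `q |X_n|`, then for all `p`-blocks `B` of all finite groups there is an
`H_B^π`-equivariant bijection between the height zero characters of `B` and `b`. The same holds for the
blocks with defect group in a given class of groups.

Three cases. If `q |X_n|` tends to infinity with `n ∈ N` then `π` can be the set of all primes and
`H_B^π = H_B`: the Alperin-McKay-Navarro conjecture for all finite groups is equivalent to the
congruence of the numbers of fixed characters modulo the prime `q |G|` for the groups `G` with at most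
three normal subgroups. If `q` is constant then `π` can be the set of all primes different from `q`.
If `π` is empty, one gets that the Alperin-McKay conjecture is equivalent to its reduction modulo a
prime for the groups with at most three normal subgroups.
-/

open Pool.Agent.H18 Pool.Agent.H96.UG

namespace Pool.Agent.Results.MP_7f1e7e_al.CongruenceCriterion

/-- The class `𝒟` of groups is closed under isomorphisms, finite direct powers of its finite
members, and direct products of its finite members with groups of order `p`. -/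
structure DefectClass (p : ℕ) (𝒟 : (P : Type) → [Group P] → Prop) : Prop where
  iso : ∀ (P Q : Type) [Group P] [Group Q], (P ≃* Q) → 𝒟 P → 𝒟 Q
  pow : ∀ (P I : Type) [Group P] [Finite P] [Finite I], 𝒟 P → 𝒟 (I → P)
  prod : ∀ (P C : Type) [Group P] [Group C] [Finite P], Nat.card C = p → 𝒟 P → 𝒟 (P × C)

/-- The elements of the stabiliser of the block `B` in Navarro's group a power of which, with
exponent a product of primes in `π`, fixes the roots of unity of order `|G|`. -/
def navHBOf (p : ℕ) (π : Set ℕ) {G : Type} [Group G] (B : Set (G → AlgebraicClosure ℚ)) :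
    Set (AlgebraicClosure ℚ ≃ₐ[ℚ] AlgebraicClosure ℚ) :=
  {τ ∈ navHB p B | ∃ e : ℕ, e ≠ 0 ∧ (∀ r : ℕ, r.Prime → r ∣ e → r ∈ π) ∧
    ∀ ξ : AlgebraicClosure ℚ, ξ ^ Nat.card G = 1 → (τ ^ e) ξ = ξ}

/-- For every `p`-block `B` of `G` with defect group `D` in the class `𝒟` and Brauer correspondent
`b`, and for every subset `A` of `navHBOf p π B`, the numbers of characters of height zero of `B` and
of `b` fixed by `A` are congruent modulo `r`. -/
def CongruentNumbers (p : ℕ) (𝒪 : ValuationSubring (AlgebraicClosure ℚ))
    (𝒟 : (P : Type) → [Group P] → Prop) (π : Set ℕ) (r : ℕ) (G : Type) [Group G] : Prop :=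
  ∀ (B : Set (G → AlgebraicClosure ℚ)) (D : Subgroup G)
    (b : Set (Subgroup.normalizer (D : Set G) → AlgebraicClosure ℚ)),
    IsBlock 𝒪 B → IsDefectGroup 𝒪 B D → IsBlock 𝒪 b → IsBrauerCorr 𝒪 B D b → 𝒟 D →
    ∀ A ⊆ navHBOf p π B,
      {χ ∈ Irr0 p B D | ∀ τ ∈ A, gal τ χ = χ}.ncard ≡
        {ψ ∈ Irr0 p b (D.subgroupOf (Subgroup.normalizer (D : Set G))) |
          ∀ τ ∈ A, gal τ ψ = ψ}.ncard [MOD r]

/-- For every `p`-block `B` of `G` with defect group `D` in the class `𝒟` and Brauer correspondent
`b` there is a bijection between the height zero characters of `B` and of `b` which commutes with the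
action of `navHBOf p π B`. -/
def EquivariantBijections (p : ℕ) (𝒪 : ValuationSubring (AlgebraicClosure ℚ))
    (𝒟 : (P : Type) → [Group P] → Prop) (π : Set ℕ) (G : Type) [Group G] : Prop :=
  ∀ (B : Set (G → AlgebraicClosure ℚ)) (D : Subgroup G)
    (b : Set (Subgroup.normalizer (D : Set G) → AlgebraicClosure ℚ)),
    IsBlock 𝒪 B → IsDefectGroup 𝒪 B D → IsBlock 𝒪 b → IsBrauerCorr 𝒪 B D b → 𝒟 D →
    ∃ f : (G → AlgebraicClosure ℚ) → (Subgroup.normalizer (D : Set G) → AlgebraicClosure ℚ),
      Set.BijOn f (Irr0 p B D) (Irr0 p b (D.subgroupOf (Subgroup.normalizer (D : Set G)))) ∧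
      ∀ τ ∈ navHBOf p π B, ∀ χ ∈ Irr0 p B D, f (gal τ χ) = gal τ (f χ)

/-- Let `p` and `ℓ` be different primes, `ℓ` odd, `N` an infinite set of natural numbers `n ≥ 8`
prime to `ℓ`, `𝒟` a class of groups closed under isomorphisms, finite direct powers and direct
products with groups of order `p`, `q` a function whose values are primes different from `p`, and
`π` a set of natural numbers each of which equals `q |X_n|` for only finitely many `n ∈ N`, where
`X_n = V_n ⋊ A_n`. Three statements are equivalent: the congruence modulo `q |X_n|` of the numbers of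
`A`-fixed characters of height zero of `B` and of its Brauer correspondent, for the `p`-blocks `B`
with defect group in `𝒟` of the groups `X_n` with `n ∈ N` and the subsets `A` of `navHBOf p π B`; the
same congruence modulo `q |G|` for all finite groups `G` with at most three normal subgroups; for the
`p`-blocks `B` with defect group in `𝒟` of all finite groups, the existence of a bijection between
the height zero characters of `B` and of its Brauer correspondent which commutes with
`navHBOf p π B`. -/
theorem result (p ℓ : ℕ) (hp : p.Prime) (hℓ : ℓ.Prime) (hpℓ : p ≠ ℓ) (hℓ2 : ℓ ≠ 2)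
    (𝒪 : ValuationSubring (AlgebraicClosure ℚ))
    (h𝒪 : (p : AlgebraicClosure ℚ) ∈ 𝒪.nonunits)
    (𝒟 : (P : Type) → [Group P] → Prop) (h𝒟 : DefectClass p 𝒟)
    (N : Set ℕ) (hN : N.Infinite) (hN8 : ∀ n ∈ N, 8 ≤ n ∧ ¬ ℓ ∣ n)
    (q : ℕ → ℕ) (hq : ∀ j, (q j).Prime ∧ q j ≠ p)
    (π : Set ℕ) (hπ : ∀ r ∈ π, {n ∈ N | q (Nat.card (altGroup n ℓ)) = r}.Finite) :
    List.TFAE [∀ n ∈ N, CongruentNumbers p 𝒪 𝒟 π (q (Nat.card (altGroup n ℓ))) (altGroup n ℓ),
      ∀ (G : Type) [Group G] [Finite G], Nat.card {M : Subgroup G // M.Normal} ≤ 3 →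
        CongruentNumbers p 𝒪 𝒟 π (q (Nat.card G)) G,
      ∀ (G : Type) [Group G] [Finite G], EquivariantBijections p 𝒪 𝒟 π G] := by
  have : Fact p.Prime := ⟨hp⟩
  have : Fact ℓ.Prime := ⟨hℓ⟩
  have hfin : ∀ n, Finite (altGroup n ℓ) := by
    intro n
    have : NeZero ℓ := ⟨hℓ.ne_zero⟩
    exact Finite.of_equiv _ SemidirectProduct.equivProd.symm
  tfae_have 1 → 3 := by
    intro hyp G _ _ B D b hB hD hb hBb hDD
    refine amn_pi_of_altGroup hpℓ hℓ2 h𝒪 h𝒟.iso (fun P _ _ hP => h𝒟.prod P _ ?_ hP) h𝒟.pow hN
      (fun n hn => (hN8 n hn).2) (q := fun n => q (Nat.card (altGroup n ℓ))) (π := π)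
      (fun n _ => hq _) hπ ?_ G hB hD hb hBb hDD
    · rw [Nat.card_congr Multiplicative.toAdd, Nat.card_zmod]
    · intro n hn V hV B' D' b' hB' hD' hb' hBb' hDD' hst
      exact hyp n hn B' D' b' hB' hD' hb' hBb' hDD' V fun τ hτ =>
        ⟨⟨(hV τ hτ).1, hst τ hτ⟩, (hV τ hτ).2⟩
  tfae_have 3 → 2 := by
    intro hyp G _ _ _ B D b hB hD hb hBb hDD A hA
    have h1 : fxs A (Irr0 p B D) =
        fxs A (Irr0 p b (D.subgroupOf (Subgroup.normalizer (D : Set G)))) :=
      marks_of_equiv (H := navHBOf p π B) (fun τ hτ => hτ.1.2)
        (hyp G B D b hB hD hb hBb hDD) hA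
    unfold fxs at h1
    rw [h1]
  tfae_have 2 → 1 := by
    intro hyp n hn
    have := hfin n
    refine hyp (altGroup n ℓ) ?_
    have h1 : {M : Subgroup (altGroup n ℓ) | M.Normal} ⊆ {⊥,
        (SemidirectProduct.inl : VGrp n ℓ →* altGroup n ℓ).range, ⊤} := by
      intro M hM
      exact altGroup_normal (hN8 n hn).2 hℓ2 (hN8 n hn).1 M hM
    have h2 := Set.ncard_le_ncard h1 (Set.toFinite _)
    refine (h2.trans ((Set.ncard_insert_le _ _).trans (Nat.succ_le_succ
      ((Set.ncard_insert_le _ _).trans (Nat.succ_le_succ ?_)))))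
    rw [Set.ncard_singleton]
  tfae_finish

end Pool.Agent.Results.MP_7f1e7e_al.CongruenceCriterion
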