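import Pool.Agent.H18.PM.PMRes
import Pool.Agent.H96.UG.OrbAlt

/-!
# Numbers of height zero characters fixed by `p`-groups of automorphisms

Let `p` and `ℓ` be different primes, `ℓ` odd, and let `V_n` be the additive group of the
antisymmetric `n × n` matrices over the field with `ℓ` elements all of whose row sums are zero, on
which the alternating group `A_n` acts by simultaneous permutation of the rows and columns. If for
the stable `p`-blocks of the explicit groups `V_n ⋊ A_n`, `n` in any given infinite set of numbers
prime to `ℓ`, or of all finite groups with at most three normal subgroups, Navarro's group has as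
many orbits on the height zero characters of the block as on those of its Brauer correspondent, then
for every `p`-block `B` of every finite group `G`, with defect group `D` and Brauer correspondent
`b`, every `p`-group `P` of automorphisms of `G` which fixes `D` and `B`, and every automorphism `α`
normalising `P` and fixing `D` whose composite with an element `τ` of Navarro's group stabilises
`B`, there are as many height zero characters of `B` as of `b` fixed by `P` and by the composite.
-/

open Pool.Agent.H18 Pool.Agent.H96.UG

namespace Pool.Agent.Results.MP_7f1e7e_al.PGroupFixedPoints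

/-- For every `p`-block `B` of `G` stable under Navarro's group, with defect group `D` and Brauer
correspondent `b`, Navarro's group has as many orbits on the height zero characters of `B` as on
those of `b`. -/
def OrbitNumbers (p : ℕ) (𝒪 : ValuationSubring (AlgebraicClosure ℚ)) (G : Type) [Group G] :
    Prop :=
  ∀ (B : Set (G → AlgebraicClosure ℚ)) (D : Subgroup G)
    (b : Set (Subgroup.normalizer (D : Set G) → AlgebraicClosure ℚ)),
    IsBlock 𝒪 B → IsDefectGroup 𝒪 B D → IsBlock 𝒪 b → IsBrauerCorr 𝒪 B D b →
    (∀ τ ∈ navH p (Nat.card G), gal τ '' B = B) →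
    (orbitsOf (navH p (Nat.card G)) (Irr0 p B D)).ncard =
      (orbitsOf (navH p (Nat.card G))
        (Irr0 p b (D.subgroupOf (Subgroup.normalizer (D : Set G))))).ncard

/-- For every `p`-block `B` of `G` with defect group `D` and Brauer correspondent `b`, every
`p`-subgroup `P` of the automorphism group of `G` whose elements fix `D` and `B`, every automorphism
`α` of `G` which fixes `D` and normalises `P`, and every `τ` in Navarro's group such that the
composite of `τ` and `α` stabilises `B`: the numbers of height zero characters of `B` and of `b`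
which are fixed by all elements of `P` and by the composite of `τ` and `α` are equal. -/
def FixedPoints (p : ℕ) (𝒪 : ValuationSubring (AlgebraicClosure ℚ)) (G : Type) [Group G] :
    Prop :=
  ∀ (B : Set (G → AlgebraicClosure ℚ)) (D : Subgroup G)
    (b : Set (Subgroup.normalizer (D : Set G) → AlgebraicClosure ℚ)),
    IsBlock 𝒪 B → IsDefectGroup 𝒪 B D → IsBlock 𝒪 b → IsBrauerCorr 𝒪 B D b →
    ∀ P : Subgroup (MulAut G), IsPGroup p P →
    (∀ x ∈ P, D.map x.toMonoidHom = D ∧
      (fun (χ : G → AlgebraicClosure ℚ) g => χ (x g)) '' B = B) →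
    ∀ α : MulAut G, D.map α.toMonoidHom = D → (∀ x ∈ P, α * x * α⁻¹ ∈ P) →
    ∀ τ ∈ navH p (Nat.card G),
      (fun (χ : G → AlgebraicClosure ℚ) g => gal τ χ (α g)) '' B = B →
      {χ ∈ Irr0 p B D | (∀ x ∈ P, ∀ g, χ (x g) = χ g) ∧ ∀ g, τ (χ (α g)) = χ g}.ncard =
        {ψ ∈ Irr0 p b (D.subgroupOf (Subgroup.normalizer (D : Set G))) |
          (∀ x ∈ P, ∀ y y' : Subgroup.normalizer (D : Set G), (y' : G) = x y → ψ y' = ψ y) ∧
          ∀ y y' : Subgroup.normalizer (D : Set G), (y' : G) = α y → τ (ψ y') = ψ y}.ncard

/-- Let `p` and `ℓ` be different primes, `ℓ` odd, and `N` an infinite set of natural numbers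
`n ≥ 8` prime to `ℓ`. Three statements are equivalent: the equality of the numbers of orbits of
Navarro's group for the stable `p`-blocks of the groups `X_n = V_n ⋊ A_n` with `n ∈ N`; the same
equality for all finite groups with at most three normal subgroups; the equality of the numbers of
height zero characters fixed by `p`-groups of automorphisms and composites, for all blocks of all
finite groups. -/
theorem result (p ℓ : ℕ) (hp : p.Prime) (hℓ : ℓ.Prime) (hpℓ : p ≠ ℓ) (hℓ2 : ℓ ≠ 2)
    (𝒪 : ValuationSubring (AlgebraicClosure ℚ))
    (h𝒪 : (p : AlgebraicClosure ℚ) ∈ 𝒪.nonunits) (N : Set ℕ) (hN : N.Infinite)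
    (hN8 : ∀ n ∈ N, 8 ≤ n ∧ ¬ ℓ ∣ n) :
    List.TFAE [∀ n ∈ N, OrbitNumbers p 𝒪 (altGroup n ℓ),
      ∀ (G : Type) [Group G] [Finite G], Nat.card {M : Subgroup G // M.Normal} ≤ 3 →
        OrbitNumbers p 𝒪 G,
      ∀ (G : Type) [Group G] [Finite G], FixedPoints p 𝒪 G] := by
  have : Fact p.Prime := ⟨hp⟩
  have : Fact ℓ.Prime := ⟨hℓ⟩
  tfae_have 1 → 3 := by
    intro hyp
    have hyp2 : ∀ (G : Type) [Group G] [Finite G], OrbitNumbers p 𝒪 G := by
      intro G _ _
      exact orbits_of_altGroup hpℓ hℓ2 h𝒪 hN (fun n hn => (hN8 n hn).2) hyp G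
    intro G _ _ B D b hB hD hb hBb P hP hPD α hα hαP τ hτ hst
    exact pmres p hp 𝒪 h𝒪 (fun _ _ => True) (fun _ _ _ _ _ _ _ => trivial)
      (fun _ _ _ _ _ _ _ _ => trivial) (fun _ _ _ _ _ _ => trivial)
      (fun _ _ _ _ _ _ _ _ _ => trivial) (fun G _ _ _ => hyp2 G) G trivial B D b hB hD hb hBb P
      hP hPD α hα hαP τ hτ hst
  tfae_have 3 → 2 := by
    intro hyp
    have h1 := (SOrb.stableOrbits_iff p hp 𝒪 h𝒪 (fun _ _ => True)
      (fun _ _ _ _ _ _ _ _ => trivial) (fun _ _ _ _ _ _ => trivial)
      (fun _ _ _ _ _ _ _ _ _ => trivial)).mpr (by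
        intro G _ _ _ B D b hB hD hb hBb α β hαβ hαD τ hτ hst
        have h2 := hyp G B D b hB hD hb hBb ⊥ IsPGroup.of_bot (by
          intro x hx
          rw [Subgroup.mem_bot] at hx
          subst hx
          refine ⟨?_, ?_⟩
          · ext y; simp
          · ext y; simp) α hαD (by
          intro x hx
          rw [Subgroup.mem_bot] at hx ⊢
          subst hx
          simp) τ hτ hst
        have e1 : {χ ∈ Irr0 p B D | (∀ x ∈ (⊥ : Subgroup (MulAut G)), ∀ g, χ (x g) = χ g) ∧
            ∀ g, τ (χ (α g)) = χ g} =
            {χ ∈ Irr0 p B D | (fun g => gal τ χ (α g)) = χ} := by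
          ext χ
          refine and_congr_right fun _ => ?_
          constructor
          · rintro ⟨_, h3⟩
            exact funext h3
          · intro h3
            refine ⟨fun x hx g => ?_, fun g => congrFun h3 g⟩
            rw [Subgroup.mem_bot] at hx
            rw [hx]
            rfl
        have e2 : {ψ ∈ Irr0 p b (D.subgroupOf (Subgroup.normalizer (D : Set G))) |
            (∀ x ∈ (⊥ : Subgroup (MulAut G)), ∀ y y' : Subgroup.normalizer (D : Set G),
              (y' : G) = x y → ψ y' = ψ y) ∧
            ∀ y y' : Subgroup.normalizer (D : Set G), (y' : G) = α y → τ (ψ y') = ψ y} =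
            {χ ∈ Irr0 p b (D.subgroupOf (Subgroup.normalizer (D : Set G))) |
              (fun x => gal τ χ (β x)) = χ} := by
          ext ψ
          refine and_congr_right fun _ => ?_
          constructor
          · rintro ⟨_, h3⟩
            funext y
            exact h3 y _ (hαβ y)
          · intro h3
            refine ⟨fun x hx y y' hy => ?_, fun y y' hy => ?_⟩
            · rw [Subgroup.mem_bot] at hx
              have h4 : y' = y := Subtype.ext (by rw [hy, hx]; rfl)
              rw [h4]
            · have h4 : y' = β y := Subtype.ext (hy.trans (hαβ y).symm)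
              rw [h4]
              exact congrFun h3 y
        rw [e1, e2] at h2
        exact h2)
    intro G _ _ _ B D b hB hD hb hBb hst
    exact h1 G trivial B D b hB hD hb hBb hst
  tfae_have 2 → 1 := by
    intro hyp n hn
    have : Finite (altGroup n ℓ) := by
      have : NeZero ℓ := ⟨hℓ.ne_zero⟩
      exact Finite.of_equiv _ SemidirectProduct.equivProd.symm
    exact hyp (altGroup n ℓ) (card_normal_altGroup hℓ hℓ2 (hN8 n hn).1 (hN8 n hn).2)
  tfae_finish

end Pool.Agent.Results.MP_7f1e7e_al.PGroupFixedPoints
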