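import Pool.Agent.H18.AG.GrowthN
import Pool.Agent.H96.UG.NormSub

/-!
# The Alperin-McKay-Navarro conjecture up to subexponential factors

Let `p` and `ℓ` be different primes, `ℓ` odd, and let `X_n = V_n ⋊ A_n`, where `V_n` is the additive
group of the antisymmetric `n × n` matrices over the field with `ℓ` elements all of whose row sums
are zero, on which the alternating group `A_n` acts by simultaneous permutation of the rows and
columns; if `ℓ` does not divide `n` and `n ≥ 8` then `1`, `V_n` and `X_n` are the only normal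
subgroups of `X_n`.

The Alperin-McKay-Navarro conjecture says that for every `p`-block `B` with Brauer correspondent `b`
the stabiliser of `B` in Navarro's group permutes the height zero characters of `B` and of `b` in
the same way; so every subset `A` of this stabiliser fixes the same number of height zero characters
in `B` and in `b`. It is proved here that the conjecture for all finite groups is equivalent to the
equality of these numbers up to factors which are subexponential in `n` for the groups `X_n`, `n` in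
any given infinite set, and also to the equality up to factors `C |D| ^ ε`, for every `ε > 0`, for
the groups with at most three normal subgroups, where `D` is the defect group and `C` depends only on
`ε`. (By a theorem of Brauer and Feit all these numbers are at most `|D| ^ 2`.) The same holds for
the blocks with defect group in a given class of groups closed under finite direct powers.
-/

open Pool.Agent.H18 Pool.Agent.H96.UG

namespace Pool.Agent.Results.MP_7f1e7e_al.SubexponentialRatio

/-- The class `𝒟` of groups is closed under isomorphisms and finite direct powers of its finite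
members. -/
structure PowerClosed (𝒟 : (P : Type) → [Group P] → Prop) : Prop where
  iso : ∀ (P Q : Type) [Group P] [Group Q], (P ≃* Q) → 𝒟 P → 𝒟 Q
  pow : ∀ (P I : Type) [Group P] [Finite P] [Finite I], 𝒟 P → 𝒟 (I → P)

/-- For every `p`-block `B` of `G` with defect group `D` in the class `𝒟` and Brauer correspondent
`b`, and for every subset `A` of the stabiliser of `B` in Navarro's group, the numbers of characters
of height zero of `B` and of `b` fixed by `A` are at most `c |D|` times each other. -/
def RatioAtMost (p : ℕ) (𝒪 : ValuationSubring (AlgebraicClosure ℚ))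
    (𝒟 : (P : Type) → [Group P] → Prop) (c : ℕ → ℝ) (G : Type) [Group G] : Prop :=
  ∀ (B : Set (G → AlgebraicClosure ℚ)) (D : Subgroup G)
    (b : Set (Subgroup.normalizer (D : Set G) → AlgebraicClosure ℚ)),
    IsBlock 𝒪 B → IsDefectGroup 𝒪 B D → IsBlock 𝒪 b → IsBrauerCorr 𝒪 B D b → 𝒟 D →
    ∀ A ⊆ navHB p B,
      ({χ ∈ Irr0 p B D | ∀ τ ∈ A, gal τ χ = χ}.ncard : ℝ) ≤
          c (Nat.card D) * {ψ ∈ Irr0 p b (D.subgroupOf (Subgroup.normalizer (D : Set G))) |
            ∀ τ ∈ A, gal τ ψ = ψ}.ncard ∧
        ({ψ ∈ Irr0 p b (D.subgroupOf (Subgroup.normalizer (D : Set G))) |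
            ∀ τ ∈ A, gal τ ψ = ψ}.ncard : ℝ) ≤
          c (Nat.card D) * {χ ∈ Irr0 p B D | ∀ τ ∈ A, gal τ χ = χ}.ncard

/-- The Alperin-McKay-Navarro conjecture for the `p`-blocks of `G` with defect group in the class
`𝒟`: for every `p`-block `B` of `G` with defect group `D` in `𝒟` and Brauer correspondent `b` there
is a bijection between the height zero characters of `B` and of `b` which commutes with the action
of the stabiliser of `B` in Navarro's group. -/
def AMN (p : ℕ) (𝒪 : ValuationSubring (AlgebraicClosure ℚ))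
    (𝒟 : (P : Type) → [Group P] → Prop) (G : Type) [Group G] : Prop :=
  ∀ (B : Set (G → AlgebraicClosure ℚ)) (D : Subgroup G)
    (b : Set (Subgroup.normalizer (D : Set G) → AlgebraicClosure ℚ)),
    IsBlock 𝒪 B → IsDefectGroup 𝒪 B D → IsBlock 𝒪 b → IsBrauerCorr 𝒪 B D b → 𝒟 D →
    ∃ f : (G → AlgebraicClosure ℚ) → (Subgroup.normalizer (D : Set G) → AlgebraicClosure ℚ),
      Set.BijOn f (Irr0 p B D) (Irr0 p b (D.subgroupOf (Subgroup.normalizer (D : Set G)))) ∧
      ∀ τ ∈ navHB p B, ∀ χ ∈ Irr0 p B D, f (gal τ χ) = gal τ (f χ)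

/-- Let `p` and `ℓ` be different primes, `ℓ` odd, `N` an infinite set of natural numbers `n ≥ 8`
prime to `ℓ`, and `𝒟` a class of groups closed under isomorphisms and finite direct powers.
Equivalent are: (i) for every `ε > 0` there is `C` such that for all `n ∈ N`, all `p`-blocks `B` of
`X_n = V_n ⋊ A_n` with defect group in `𝒟` and Brauer correspondent `b`, and all subsets `A` of the
stabiliser of `B` in Navarro's group, the numbers of characters of height zero of `B` and of `b`
fixed by `A` are at most `C * exp (ε * n)` times each other; (ii) for every `ε > 0` there is `C` such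
that for all finite groups with at most three normal subgroups, all `p`-blocks `B` with defect group
`D` in `𝒟`, and all `A`, these numbers are at most `C * |D| ^ ε` times each other; (iii) the
Alperin-McKay-Navarro conjecture for all `p`-blocks with defect group in `𝒟` of all finite
groups. -/
theorem result (p ℓ : ℕ) (hp : p.Prime) (hℓ : ℓ.Prime) (hpℓ : p ≠ ℓ) (hℓ2 : ℓ ≠ 2)
    (𝒪 : ValuationSubring (AlgebraicClosure ℚ))
    (h𝒪 : (p : AlgebraicClosure ℚ) ∈ 𝒪.nonunits)
    (𝒟 : (P : Type) → [Group P] → Prop) (h𝒟 : PowerClosed 𝒟)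
    (N : Set ℕ) (hN : N.Infinite) (hN8 : ∀ n ∈ N, 8 ≤ n ∧ ¬ ℓ ∣ n) :
    List.TFAE [∀ ε : ℝ, 0 < ε → ∃ C : ℝ, ∀ n ∈ N,
        RatioAtMost p 𝒪 𝒟 (fun _ => C * Real.exp (ε * n)) (altGroup n ℓ),
      ∀ ε : ℝ, 0 < ε → ∃ C : ℝ, ∀ (G : Type) [Group G] [Finite G],
        Nat.card {M : Subgroup G // M.Normal} ≤ 3 →
          RatioAtMost p 𝒪 𝒟 (fun d => C * (d : ℝ) ^ ε) G,
      ∀ (G : Type) [Group G] [Finite G], AMN p 𝒪 𝒟 G] := by
  have : Fact p.Prime := ⟨hp⟩
  have : Fact ℓ.Prime := ⟨hℓ⟩
  have hfin : ∀ n, Finite (altGroup n ℓ) := by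
    intro n
    have : NeZero ℓ := ⟨hℓ.ne_zero⟩
    exact Finite.of_equiv _ SemidirectProduct.equivProd.symm
  tfae_have 1 → 3 := by
    intro hyp G _ _ B D b hB hD hb hBb hDD
    refine amn_of_growthC hpℓ hℓ2 h𝒪 h𝒟.iso h𝒟.pow hN (fun n hn => (hN8 n hn).2) ?_
      G hB hD hb hBb hDD
    intro ε hε
    obtain ⟨C, hC⟩ := hyp ε hε
    exact ⟨C, fun n hn V hV B' D' b' hB' hD' hb' hBb' hDD' hst =>
      hC n hn B' D' b' hB' hD' hb' hBb' hDD' V fun τ hτ => ⟨hV hτ, hst τ hτ⟩⟩
  tfae_have 3 → 2 := by
    intro hyp ε hε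
    refine ⟨1, fun G _ _ _ B D b hB hD hb hBb hDD A hA => ?_⟩
    have h1 : (1 : ℝ) ≤ 1 * (Nat.card D : ℝ) ^ ε := by
      rw [one_mul]
      refine Real.one_le_rpow ?_ hε.le
      exact_mod_cast (Nat.card_pos : 0 < Nat.card D)
    have h2 := marks_of_amn (hyp G B D b hB hD hb hBb hDD) hA
    unfold fxs at h2
    rw [h2]
    exact ⟨le_mul_of_one_le_left (Nat.cast_nonneg _) h1,
      le_mul_of_one_le_left (Nat.cast_nonneg _) h1⟩
  tfae_have 2 → 1 := by
    intro hyp ε hε
    have hp1 : (1 : ℝ) < p := by exact_mod_cast hp.one_lt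
    have hlog : 0 < Real.log p := Real.log_pos hp1
    obtain ⟨C, hC⟩ := hyp (ε / Real.log p) (div_pos hε hlog)
    refine ⟨|C|, fun n hn => ?_⟩
    have := hfin n
    have hnorm : Nat.card {M : Subgroup (altGroup n ℓ) // M.Normal} ≤ 3 := by
      have h1 : {M : Subgroup (altGroup n ℓ) | M.Normal} ⊆ {⊥,
          (SemidirectProduct.inl : VGrp n ℓ →* altGroup n ℓ).range, ⊤} := by
        intro M hM
        exact altGroup_normal (hN8 n hn).2 hℓ2 (hN8 n hn).1 M hM
      have h2 := Set.ncard_le_ncard h1 (Set.toFinite _)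
      refine (h2.trans ((Set.ncard_insert_le _ _).trans (Nat.succ_le_succ
        ((Set.ncard_insert_le _ _).trans (Nat.succ_le_succ ?_)))))
      rw [Set.ncard_singleton]
    intro B D b hB hD hb hBb hDD A hA
    have h1 := hC (altGroup n ℓ) hnorm B D b hB hD hb hBb hDD A hA
    have h2 : C * (Nat.card D : ℝ) ^ (ε / Real.log p) ≤ |C| * Real.exp (ε * n) := by
      refine mul_le_mul (le_abs_self C) ?_ (by positivity) (abs_nonneg C)
      have h3 : (Nat.card D : ℝ) ≤ (p : ℝ) ^ n := by
        exact_mod_cast card_le_of_pgroup_altGroup hpℓ (hD.isPGroup h𝒪)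
      calc (Nat.card D : ℝ) ^ (ε / Real.log p) ≤ ((p : ℝ) ^ n) ^ (ε / Real.log p) :=
            Real.rpow_le_rpow (by positivity) h3 (div_pos hε hlog).le
        _ = Real.exp (ε * n) := by
          rw [← Real.rpow_natCast, ← Real.rpow_mul (by positivity),
            Real.rpow_def_of_pos (by positivity)]
          congr 1
          field_simp
    exact ⟨h1.1.trans (mul_le_mul_of_nonneg_right h2 (Nat.cast_nonneg _)),
      h1.2.trans (mul_le_mul_of_nonneg_right h2 (Nat.cast_nonneg _))⟩
  tfae_finish

end Pool.Agent.Results.MP_7f1e7e_al.SubexponentialRatio
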