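import Pool.Agent.H96.UG.DefCls2
import Pool.Agent.H96.UG.NormSub

/-!
# The Alperin-McKay-Navarro conjecture and groups with three normal subgroups

Let `p` and `ℓ` be different primes, `ℓ` odd, and let `V_n` be the additive group of the
antisymmetric `n × n` matrices over the field with `ℓ` elements all of whose row sums are zero, on
which the alternating group `A_n` acts by simultaneous permutation of the rows and columns. If `ℓ`
does not divide `n` and `n ≥ 8` then the only normal subgroups of `X_n = V_n ⋊ A_n` are `1`, `V_n`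
and `X_n`. For every class `𝒟` of groups closed under isomorphisms, finite direct powers and direct
products with finite abelian `p`-groups, the Alperin-McKay-Navarro conjecture for all `p`-blocks of
all finite groups with defect group in `𝒟` is equivalent to the equality of one pair of integers for
each stable `p`-block with defect group in `𝒟` of each of the groups `X_n`, `n` in any given infinite
set, and also to the same equality for all finite groups with at most three normal subgroups.
-/

open Pool.Agent.H18 Pool.Agent.H96.UG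

namespace Pool.Agent.Results.MP_7f1e7e_al.UniversalGroups

/-- The class `𝒟` of groups is closed under isomorphisms, finite direct powers of its finite
members, and direct products of its finite members with finite abelian `p`-groups. -/
structure DefectClass (p : ℕ) (𝒟 : (P : Type) → [Group P] → Prop) : Prop where
  iso : ∀ (P Q : Type) [Group P] [Group Q], (P ≃* Q) → 𝒟 P → 𝒟 Q
  pow : ∀ (P I : Type) [Group P] [Finite P] [Finite I], 𝒟 P → 𝒟 (I → P)
  prod : ∀ (P A : Type) [Group P] [CommGroup A] [Finite P] [Finite A], IsPGroup p A →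
    𝒟 P → 𝒟 (P × A)

/-- For every `p`-block `B` of `G` stable under Navarro's group, with defect group `D` in the class
`𝒟` and Brauer correspondent `b`, the sum of the lengths of the orbits of Navarro's group through
the height zero characters of `B` is equal to the same sum for `b`. -/
def OrbitSums (p : ℕ) (𝒪 : ValuationSubring (AlgebraicClosure ℚ))
    (𝒟 : (P : Type) → [Group P] → Prop) (G : Type) [Group G] : Prop :=
  ∀ (B : Set (G → AlgebraicClosure ℚ)) (D : Subgroup G)
    (b : Set (Subgroup.normalizer (D : Set G) → AlgebraicClosure ℚ)),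
    IsBlock 𝒪 B → IsDefectGroup 𝒪 B D → IsBlock 𝒪 b → IsBrauerCorr 𝒪 B D b → 𝒟 D →
    (∀ τ ∈ navH p (Nat.card G), gal τ '' B = B) →
    ∑ᶠ χ ∈ Irr0 p B D, ((fun τ => gal τ χ) '' navH p (Nat.card G)).ncard =
      ∑ᶠ χ ∈ Irr0 p b (D.subgroupOf (Subgroup.normalizer (D : Set G))),
        ((fun τ => gal τ χ) '' navH p (Nat.card G)).ncard

/-- The Alperin-McKay-Navarro conjecture for the `p`-blocks of `G` with defect group in the class
`𝒟`: for every `p`-block `B` of `G` with defect group `D` in `𝒟` and Brauer correspondent `b` there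
is a bijection between the height zero characters of `B` and of `b` which commutes with the action
of the stabiliser of `B` in Navarro's group. -/
def AMN (p : ℕ) (𝒪 : ValuationSubring (AlgebraicClosure ℚ))
    (𝒟 : (P : Type) → [Group P] → Prop) (G : Type) [Group G] : Prop :=
  ∀ (B : Set (G → AlgebraicClosure ℚ)) (D : Subgroup G)
    (b : Set (Subgroup.normalizer (D : Set G) → AlgebraicClosure ℚ)),
    IsBlock 𝒪 B → IsDefectGroup 𝒪 B D → IsBlock 𝒪 b → IsBrauerCorr 𝒪 B D b → 𝒟 D →
    ∃ f : (G → AlgebraicClosure ℚ) → (Subgroup.normalizer (D : Set G) → AlgebraicClosure ℚ),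
      Set.BijOn f (Irr0 p B D) (Irr0 p b (D.subgroupOf (Subgroup.normalizer (D : Set G)))) ∧
      ∀ τ ∈ navHB p B, ∀ χ ∈ Irr0 p B D, f (gal τ χ) = gal τ (f χ)

/-- Let `p` and `ℓ` be different primes, `ℓ` odd, `N` an infinite set of natural numbers `n ≥ 8`
prime to `ℓ`, and `𝒟` a class of groups closed under isomorphisms, finite direct powers and direct
products with finite abelian `p`-groups. Three statements are equivalent: the equality of the sums
of the lengths of the orbits of Navarro's group through the height zero characters of `B` and of its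
Brauer correspondent, for the stable `p`-blocks `B` with defect group in `𝒟` of the groups
`X_n = V_n ⋊ A_n` with `n ∈ N`; the same equality for all finite groups with at most three normal
subgroups; the Alperin-McKay-Navarro conjecture for all `p`-blocks with defect group in `𝒟` of all
finite groups. -/
theorem result (p ℓ : ℕ) (hp : p.Prime) (hℓ : ℓ.Prime) (hpℓ : p ≠ ℓ) (hℓ2 : ℓ ≠ 2)
    (𝒪 : ValuationSubring (AlgebraicClosure ℚ))
    (h𝒪 : (p : AlgebraicClosure ℚ) ∈ 𝒪.nonunits)
    (𝒟 : (P : Type) → [Group P] → Prop) (h𝒟 : DefectClass p 𝒟)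
    (N : Set ℕ) (hN : N.Infinite) (hN8 : ∀ n ∈ N, 8 ≤ n ∧ ¬ ℓ ∣ n) :
    List.TFAE [∀ n ∈ N, OrbitSums p 𝒪 𝒟 (altGroup n ℓ),
      ∀ (G : Type) [Group G] [Finite G], Nat.card {M : Subgroup G // M.Normal} ≤ 3 →
        OrbitSums p 𝒪 𝒟 G,
      ∀ (G : Type) [Group G] [Finite G], AMN p 𝒪 𝒟 G] := by
  have : Fact p.Prime := ⟨hp⟩
  have : Fact ℓ.Prime := ⟨hℓ⟩
  have hfin : ∀ n, Finite (altGroup n ℓ) := by
    intro n
    have : NeZero ℓ := ⟨hℓ.ne_zero⟩
    exact Finite.of_equiv _ SemidirectProduct.equivProd.symm
  tfae_have 1 → 3 := by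
    intro hyp G _ _ B D b hB hD hb hBb hDD
    exact amn_of_sumsC h𝒪 h𝒟.iso h𝒟.prod h𝒟.pow
      (fun G' _ _ B' D' b' => sums_of_altGroupC hpℓ hℓ2 h𝒪 hN (fun n hn => (hN8 n hn).2)
        h𝒟.iso hyp G' B' D' b')
      G B D b hB hD hb hBb hDD
  tfae_have 3 → 2 := by
    intro hyp G _ _ _ B D b hB hD hb hBb hDD hst
    exact sums_of_amn hst (hyp G B D b hB hD hb hBb hDD)
  tfae_have 2 → 1 := by
    intro hyp n hn
    have := hfin n
    refine hyp (altGroup n ℓ) ?_
    have h1 : {M : Subgroup (altGroup n ℓ) | M.Normal} ⊆ {⊥,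
        (SemidirectProduct.inl : VGrp n ℓ →* altGroup n ℓ).range, ⊤} := by
      intro M hM
      exact altGroup_normal (hN8 n hn).2 hℓ2 (hN8 n hn).1 M hM
    have h2 := Set.ncard_le_ncard h1 (Set.toFinite _)
    refine (h2.trans ((Set.ncard_insert_le _ _).trans (Nat.succ_le_succ
      ((Set.ncard_insert_le _ _).trans (Nat.succ_le_succ ?_)))))
    rw [Set.ncard_singleton]
  tfae_finish

end Pool.Agent.Results.MP_7f1e7e_al.UniversalGroups
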